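import Mathlib
import Pool.Agent.H.MP_6095cf_an.A

set_option autoImplicit false

namespace Pool.Agent.Results.MP_6095cf_an.No

open Finset

theorem result : ∃ (n : ℕ → ℕ) (X : Type) (_ : NormedAddCommGroup X) (_ : NormedSpace ℝ X) (_ : CompleteSpace X)
    (e : ℕ → X) (f : ℕ → X →L[ℝ] ℝ), StrictMono n ∧ 0 < n 0 ∧ (∀ k, (k + 1) * n k ≤ n (k + 1)) ∧
    (∀ i j, f i (e j) = if i = j then 1 else 0) ∧ Dense (Submodule.span ℝ (Set.range e) : Set X) ∧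
    (∀ x, (∀ i, f i x = 0) → x = 0) ∧ (∀ i, ‖e i‖ ≤ 1 ∧ ‖f i‖ ≤ 1) ∧
    (∀ m x, ‖∑ i ∈ range m, f i x • e i‖ ≤ ‖x‖) ∧
    (∃ C : ℝ, ∀ x k (A : Finset ℕ), A.card = n k → (∀ i ∈ A, ∀ j ∉ A, |f j x| ≤ |f i x|) →
      ‖∑ i ∈ A, f i x • e i‖ ≤ C * ‖x‖) ∧
    (∀ A B : Finset ℕ, A.card = B.card → ‖∑ i ∈ A, e i‖ = ‖∑ i ∈ B, e i‖) ∧
    ¬∃ C : ℝ, ∀ x k (A : Finset ℕ), A.card = n k → (∀ i ∈ A, ∀ j ∉ A, |f j x| ≤ |f i x|) →
      ‖x - ∑ i ∈ A, f i x • e i‖ ≤ C * ‖x - ∑ i ∈ range (n k), f i x • e i‖ := by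
  open Pool.Agent.H.MP_6095cf_an in
  refine ⟨n, X, inferInstance, inferInstance, inferInstance, e, f, nm, np 0, fun k => by rw [ns]; omega, fe, dn,
    fun x h => norm_le_zero_iff.1 (nl fun c => by simp [rep, h]), fun i => ⟨by simpa using (pos {i}).le,
    (f i).opNorm_le_bound zero_le_one fun x => (gl _ x).trans_eq (one_mul _).symm⟩, sch, ⟨5, qg⟩,
    fun A B h => by rw [pos, pos, h], fun ⟨C, h⟩ => ?_⟩
  obtain ⟨k, a⟩ := exists_nat_gt |C|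
  obtain ⟨x, A, p, q, r, s⟩ := bad k
  have : (0 : ℝ) < n k := mod_cast np k
  nlinarith [r.trans ((h x _ A p q).trans (mul_le_mul (le_abs_self C) s (norm_nonneg _) (abs_nonneg _)))]

end Pool.Agent.Results.MP_6095cf_an.No
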